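import Mathlib

/-!
# Observability of the heat equation on the unit square from a line of slope one: definitions
-/

open MeasureTheory Set
open scoped ENNReal

namespace Pool.Agent.R213.OB

/-- the open unit square -/
def Om : Set (ℝ × ℝ) := Ioo (0 : ℝ) 1 ×ˢ Ioo (0 : ℝ) 1

/-- the eigenfunction `sin (nπx) sin (mπy)` -/
noncomputable def ef (n m : ℕ) (p : ℝ × ℝ) : ℝ :=
  Real.sin (n * Real.pi * p.1) * Real.sin (m * Real.pi * p.2)

/-- the eigenvalue `π²(n² + m²)` -/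
noncomputable def lam (n m : ℕ) : ℝ := Real.pi ^ 2 * ((n : ℝ) ^ 2 + (m : ℝ) ^ 2)

/-- the `(n,m)`-th Fourier sine coefficient on the unit square -/
noncomputable def coef (f : ℝ × ℝ → ℝ) (n m : ℕ) : ℝ := 4 * ∫ p in Om, f p * ef n m p

/-- The solution at time `t` of the Dirichlet heat equation on the unit square with initial datum
`f`, given by its expansion into eigenfunctions. -/
noncomputable def heat (f : ℝ × ℝ → ℝ) (t : ℝ) (p : ℝ × ℝ) : ℝ :=
  ∑' k : ℕ × ℕ, coef f k.1 k.2 * Real.exp (-(lam k.1 k.2 * t)) * ef k.1 k.2 p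

/-- The heat equation is observable from `ω` at time `T`. -/
def Observable (ω : Set (ℝ × ℝ)) (T : ℝ) : Prop :=
  ∃ C : ℝ, 0 < C ∧ ∀ f : ℝ × ℝ → ℝ, MemLp f 2 (volume.restrict Om) →
    eLpNorm (heat f T) ⊤ (volume.restrict Om) ≤
      ENNReal.ofReal C * ∫⁻ t in Ioo 0 T, ⨆ p ∈ ω, ENNReal.ofReal |heat f t p|

/-- the real zero set of a polynomial in two variables -/
def curve (P : MvPolynomial (Fin 2) ℝ) : Set (ℝ × ℝ) :=
  {p | MvPolynomial.eval ![p.1, p.2] P = 0}

/-- the final statement -/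
def S_MAIN : Prop := ∃ P : MvPolynomial (Fin 2) ℝ, Irreducible P ∧
  (∀ c : ℝ, curve P ≠ {p | p.1 = c}) ∧ (∀ c : ℝ, curve P ≠ {p | p.2 = c}) ∧
  ∀ T : ℝ, 0 < T → Observable (curve P ∩ Om) T

end Pool.Agent.R213.OB
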